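import Mathlib

namespace Pool.Agent.Results.MP_513688_co.Counter

open Matrix

def A : Matrix (Fin 4) (Fin 4) ℝ := !![1, 1, 2, 0; 2, 0, 1, 1; 0, 2, 1, 1; 1, 1, 0, 2]

noncomputable def B : Matrix (Fin 4) (Fin 4) ℂ := A.map Complex.ofReal

theorem hB : B = !![1, 1, 2, 0; 2, 0, 1, 1; 0, 2, 1, 1; 1, 1, 0, 2] := by
  ext i j
  fin_cases i <;> fin_cases j <;> simp [A, B]

theorem B2 : B ^ 2 = !![3, 5, 5, 3; 3, 5, 5, 3; 5, 3, 3, 5; 5, 3, 3, 5] := by
  rw [pow_two, hB]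
  ext i j
  fin_cases i <;> fin_cases j <;> simp [Matrix.mul_apply, Fin.sum_univ_four] <;> norm_num

theorem B3 (r : ℕ) : B ^ (r + 3) = Matrix.of fun _ _ => (4 : ℂ) ^ (r + 2) := by
  induction r with
  | zero =>
    rw [show 0 + 3 = 2 + 1 from rfl, pow_succ, B2, hB]
    ext i j
    fin_cases i <;> fin_cases j <;> simp [Matrix.mul_apply, Fin.sum_univ_four] <;> norm_num
  | succ r ih =>
    rw [show r + 1 + 3 = (r + 3) + 1 from rfl, pow_succ, ih, hB]
    ext i j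
    fin_cases j <;> simp [Matrix.mul_apply, Fin.sum_univ_four] <;> ring

theorem sumB : HasSum (fun n : ℕ => ((n.factorial : ℂ)⁻¹) • B ^ n) (NormedSpace.exp B) := by
  open scoped Matrix.Norms.Operator in exact NormedSpace.exp_series_hasSum_exp' (𝕂 := ℂ) B

theorem ex : NormedSpace.exp B 0 0 = NormedSpace.exp B 1 1 := by
  have h0 := Pi.hasSum.1 (Pi.hasSum.1 sumB 0) 0
  have h1 := Pi.hasSum.1 (Pi.hasSum.1 sumB 1) 1
  have h := h0.sub h1
  have h' : HasSum (fun n : ℕ => (((n.factorial : ℂ)⁻¹) • B ^ n) 0 0 - (((n.factorial : ℂ)⁻¹) • B ^ n) 1 1)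
      (∑ n ∈ Finset.range 3,
        ((((n.factorial : ℂ)⁻¹) • B ^ n) 0 0 - (((n.factorial : ℂ)⁻¹) • B ^ n) 1 1)) := by
    refine hasSum_sum_of_ne_finset_zero fun n hn => ?_
    obtain ⟨r, rfl⟩ : ∃ r, n = r + 3 := ⟨n - 3, by simp at hn; omega⟩
    simp [B3]
  have e := h.unique h'
  rw [← sub_eq_zero, e]
  simp only [Finset.sum_range_succ, Finset.sum_range_zero, B2, pow_one, pow_zero]
  rw [hB]
  simp
  norm_num

theorem result : ∃ (n : ℕ) (A : Matrix (Fin n) (Fin n) ℝ) (β : ℂ) (i j : Fin n),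
    (∀ u v, 0 ≤ A u v ∧ IsAlgebraic ℚ (A u v)) ∧
    (¬ ∃ (P : (Matrix (Fin n) (Fin n) ℂ)ˣ) (d : Fin n → ℂ),
      A.map Complex.ofReal = P.val * diagonal d * P⁻¹.val) ∧
    β ≠ 0 ∧ IsAlgebraic ℚ β ∧
    NormedSpace.exp (β • A.map Complex.ofReal) i i =
      NormedSpace.exp (β • A.map Complex.ofReal) j j ∧
    ∃ r : ℕ, (A ^ r) i i ≠ (A ^ r) j j := by
  refine ⟨4, A, 1, 0, 1, fun u v => ?_, ?_, one_ne_zero, isAlgebraic_one, ?_, 1, by simp [A]⟩
  · have h2 : IsAlgebraic ℚ (2 : ℝ) := by exact_mod_cast isAlgebraic_natCast (R := ℚ) (A := ℝ) 2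
    fin_cases u <;> fin_cases v <;> simp [A, isAlgebraic_zero, isAlgebraic_one, h2]
  · rintro ⟨P, d, h⟩
    change B = _ at h
    have hp : ∀ k : ℕ, B ^ k = P.val * diagonal (fun i => d i ^ k) * P⁻¹.val := fun k => by
      rw [h, Units.conj_pow, diagonal_pow]; rfl
    have h4 : B ^ 4 = (4 : ℂ) • B ^ 3 := by
      rw [B3 1, B3 0]; ext i j; simp; norm_num
    have hd : ∀ i, d i ^ 2 = 4 * d i ^ 1 := fun i => by
      rw [hp, hp, ← smul_mul_assoc, ← mul_smul_comm, Units.mul_left_inj, Units.mul_right_inj] at h4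
      have := congrFun (congrFun h4 i) i
      simp only [diagonal_apply_eq, Matrix.smul_apply, smul_eq_mul] at this
      by_cases h0 : d i = 0
      · simp [h0]
      · apply mul_left_cancel₀ (pow_ne_zero 2 h0)
        linear_combination this
    have h2 : B ^ 2 = (4 : ℂ) • B ^ 1 := by
      rw [hp, hp, ← smul_mul_assoc, ← mul_smul_comm, ← diagonal_smul]
      congr 3
      ext i
      exact hd i
    have := congrFun (congrFun h2 0) 0
    rw [B2, pow_one, hB] at this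
    simp at this
  · rw [one_smul]; exact ex

end Pool.Agent.Results.MP_513688_co.Counter
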